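import Pool.Agent.R3.Iso7

/-!
# Consecutive multi-way isoperimetric constants without block systems (MP_f363fd_co, Q1)

If the automorphism group of a finite vertex-transitive graph `Γ` has no system of imprimitivity of
size `n`, then `h_{n+1}(Γ) ≤ 7 h_n(Γ)`.

Idea. If `h_{n+1} > 7 h_n`, the translates of the smallest part of a realizer fall into `m ≤ n`
classes of nearly equal sets, which define a block system of size `m` whose blocks have ratio at most
`(7 / 5) h_n`. If `m < n`, the remaining parts of the realizer meet the blocks in small pieces, most
of which (by mass) have small inner boundary; since the pieces are small they occur in at least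
`n - m + 1` different blocks, and splitting these blocks gives `n + 1` parts of ratio at most
`(17 / 5) h_n`.
-/

set_option autoImplicit false

namespace Pool.Agent.Results.MP_f363fd_co.AbsoluteConstant

open Pool.Agent.R3.Iso

theorem result : ∃ C : ℝ, 0 < C ∧ ∀ (V : Type) [Fintype V] [DecidableEq V]
    (Γ : SimpleGraph V) [DecidableRel Γ.Adj], VertexTransitive Γ →
    ∀ n : ℕ, 2 ≤ n → n < Fintype.card V → (¬ ∃ P : V → Fin n, IsBlockSystem Γ P) →
    isoConst Γ (n + 1) ≤ C * isoConst Γ n := by
  refine ⟨7, by norm_num, ?_⟩
  intro V _ _ Γ _ hvt n hn hV hno
  have hne : Nonempty V := Fintype.card_pos_iff.mp (by omega)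
  exact seven hvt hn hV hno

end Pool.Agent.Results.MP_f363fd_co.AbsoluteConstant
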